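import Pool.Agent.Helper35.HG.StB

/-!
Project HG (MP_925021_gt), module NJ1 (helper38): jets of the three functions `β, α, χ`.
The calculus of 2-jets is the one of `Helper10/HC/M_GSJ.lean`.
-/

set_option autoImplicit false

namespace Helper38.HG

open Helper35.HG Helper35.HC Helper35.HSF Helper35.MS Helper35.PI Helper35.PI2 Helper32.CL
open scoped ContDiff Manifold Topology ENNReal BigOperators
open Set Filter

section alg

variable {n N : ℕ}

/-- bilinear form in two vectors -/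
private noncomputable def b2 (c d : Fin n → ℝ) (x : Fin n → Fin n → ℝ) : ℝ :=
  ∑ i, ∑ j, c i * d j * x i j

/-- quadrilinear form in four vectors -/
private noncomputable def q4 (c d c' d' : Fin n → ℝ) (F : Fin n → Fin n → Fin n → Fin n → ℝ) :
    ℝ := ∑ i, ∑ j, ∑ k, ∑ l, c i * d j * (c' k * d' l) * F i j k l

private theorem b2_sum {ι : Type} (s : Finset ι) (c d : Fin n → ℝ)
    (F : ι → Fin n → Fin n → ℝ) :
    b2 c d (fun i j => ∑ m ∈ s, F m i j) = ∑ m ∈ s, b2 c d (F m) := by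
  classical
  induction s using Finset.induction_on with
  | empty => simp [b2]
  | insert a s ha ih =>
    rw [Finset.sum_insert ha, ← ih]
    unfold b2
    rw [← Finset.sum_add_distrib]
    refine Finset.sum_congr rfl fun i _ => ?_
    rw [← Finset.sum_add_distrib]
    refine Finset.sum_congr rfl fun j _ => ?_
    show c i * d j * (∑ m ∈ insert a s, F m i j) =
      c i * d j * F a i j + c i * d j * (∑ m ∈ s, F m i j)
    rw [Finset.sum_insert ha]
    ring

private theorem b2_smul (c d : Fin n → ℝ) (r : ℝ) (F : Fin n → Fin n → ℝ) :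
    b2 c d (fun i j => r * F i j) = r * b2 c d F := by
  unfold b2
  rw [Finset.mul_sum]
  refine Finset.sum_congr rfl fun i _ => ?_
  rw [Finset.mul_sum]
  refine Finset.sum_congr rfl fun j _ => ?_
  ring

private theorem q4_add (c d c' d' : Fin n → ℝ) (F G : Fin n → Fin n → Fin n → Fin n → ℝ) :
    q4 c d c' d' (fun i j k l => F i j k l + G i j k l) =
      q4 c d c' d' F + q4 c d c' d' G := by
  unfold q4
  rw [← Finset.sum_add_distrib]
  refine Finset.sum_congr rfl fun i _ => ?_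
  rw [← Finset.sum_add_distrib]
  refine Finset.sum_congr rfl fun j _ => ?_
  rw [← Finset.sum_add_distrib]
  refine Finset.sum_congr rfl fun k _ => ?_
  rw [← Finset.sum_add_distrib]
  refine Finset.sum_congr rfl fun l _ => ?_
  ring

private theorem q4_smul (c d c' d' : Fin n → ℝ) (r : ℝ)
    (F : Fin n → Fin n → Fin n → Fin n → ℝ) :
    q4 c d c' d' (fun i j k l => r * F i j k l) = r * q4 c d c' d' F := by
  unfold q4
  rw [Finset.mul_sum]
  refine Finset.sum_congr rfl fun i _ => ?_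
  rw [Finset.mul_sum]
  refine Finset.sum_congr rfl fun j _ => ?_
  rw [Finset.mul_sum]
  refine Finset.sum_congr rfl fun k _ => ?_
  rw [Finset.mul_sum]
  refine Finset.sum_congr rfl fun l _ => ?_
  ring

private theorem q4_sum {ι : Type} (s : Finset ι) (c d c' d' : Fin n → ℝ)
    (F : ι → Fin n → Fin n → Fin n → Fin n → ℝ) :
    q4 c d c' d' (fun i j k l => ∑ m ∈ s, F m i j k l) = ∑ m ∈ s, q4 c d c' d' (F m) := by
  classical
  induction s using Finset.induction_on with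
  | empty => simp [q4]
  | insert a s ha ih =>
    rw [Finset.sum_insert ha, ← ih, ← q4_add]
    congr 1
    funext i j k l
    rw [Finset.sum_insert ha]

private theorem q4_mul (c d c' d' : Fin n → ℝ) (x y : Fin n → Fin n → ℝ) :
    q4 c d c' d' (fun i j k l => x i j * y k l) = b2 c d x * b2 c' d' y := by
  unfold q4 b2
  rw [Finset.sum_mul]
  refine Finset.sum_congr rfl fun i _ => ?_
  rw [Finset.sum_mul]
  refine Finset.sum_congr rfl fun j _ => ?_
  rw [Finset.mul_sum]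
  refine Finset.sum_congr rfl fun k _ => ?_
  rw [Finset.mul_sum]
  refine Finset.sum_congr rfl fun l _ => ?_
  ring

private theorem b2_inner_left (c d : Fin n → ℝ) (X : Fin n → Fin n → EE N) (w : EE N) :
    b2 c d (fun i j => (inner ℝ (X i j) w : ℝ)) = inner ℝ (bilV X c d) w := by
  unfold b2 bilV
  rw [sum_inner]
  refine Finset.sum_congr rfl fun i _ => ?_
  rw [sum_inner]
  refine Finset.sum_congr rfl fun j _ => ?_
  rw [real_inner_smul_left]

private theorem b2_inner_right (c d : Fin n → ℝ) (X : Fin n → Fin n → EE N) (w : EE N) :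
    b2 c d (fun i j => (inner ℝ w (X i j) : ℝ)) = inner ℝ w (bilV X c d) := by
  rw [real_inner_comm, ← b2_inner_left]
  congr 1
  funext i j
  rw [real_inner_comm]

private theorem b2_inner_two (c d : Fin n → ℝ) (X Y : Fin n → EE N) :
    b2 c d (fun i j => (inner ℝ (X i) (Y j) : ℝ)) =
      inner ℝ (∑ i, c i • X i) (∑ j, d j • Y j) := by
  unfold b2
  rw [sum_inner]
  refine Finset.sum_congr rfl fun i _ => ?_
  rw [inner_sum]
  refine Finset.sum_congr rfl fun j _ => ?_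
  rw [real_inner_smul_left, real_inner_smul_right]
  ring

private theorem q4_inner (c d c' d' : Fin n → ℝ) (X Y : Fin n → Fin n → EE N) :
    q4 c d c' d' (fun i j k l => (inner ℝ (X i j) (Y k l) : ℝ)) =
      inner ℝ (bilV X c d) (bilV Y c' d') := by
  rw [← b2_inner_left]
  unfold q4 b2
  refine Finset.sum_congr rfl fun i _ => Finset.sum_congr rfl fun j _ => ?_
  show ∑ k, ∑ l, c i * d j * (c' k * d' l) * (inner ℝ (X i j) (Y k l) : ℝ) =
    c i * d j * (inner ℝ (X i j) (bilV Y c' d') : ℝ)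
  rw [← b2_inner_right]
  unfold b2
  rw [Finset.mul_sum]
  refine Finset.sum_congr rfl fun k _ => ?_
  rw [Finset.mul_sum]
  refine Finset.sum_congr rfl fun l _ => ?_
  ring

private theorem dd_sum (F : Fin n → Fin n → Fin n → Fin n → ℝ) :
    ∑ i, ∑ j, ∑ k, ∑ l, ((if i = k then (1 : ℝ) else 0) * (if j = l then 1 else 0)) * F i j k l =
      ∑ i, ∑ j, F i j i j := by
  refine Finset.sum_congr rfl fun i _ => Finset.sum_congr rfl fun j _ => ?_
  rw [Finset.sum_eq_single i, Finset.sum_eq_single j]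
  · simp
  · intro l _ hl
    simp [Ne.symm hl]
  · simp
  · intro k _ hk
    exact Finset.sum_eq_zero fun l _ => by simp [Ne.symm hk]
  · simp

private theorem sd_sum (S : Fin n → Fin n → ℝ) (F : Fin n → Fin n → Fin n → Fin n → ℝ) :
    ∑ i, ∑ j, ∑ k, ∑ l, (S i k * (if j = l then 1 else 0)) * F i j k l =
      ∑ i, ∑ j, ∑ k, S i k * F i j k j := by
  refine Finset.sum_congr rfl fun i _ => Finset.sum_congr rfl fun j _ =>
    Finset.sum_congr rfl fun k _ => ?_
  rw [Finset.sum_eq_single j]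
  · simp
  · intro l _ hl
    simp [Ne.symm hl]
  · simp

private theorem ds_sum (S : Fin n → Fin n → ℝ) (F : Fin n → Fin n → Fin n → Fin n → ℝ) :
    ∑ i, ∑ j, ∑ k, ∑ l, ((if i = k then (1 : ℝ) else 0) * S j l) * F i j k l =
      ∑ i, ∑ j, ∑ l, S j l * F i j i l := by
  refine Finset.sum_congr rfl fun i _ => Finset.sum_congr rfl fun j _ => ?_
  rw [Finset.sum_eq_single i]
  · refine Finset.sum_congr rfl fun l _ => ?_
    simp
  · intro k _ hk
    exact Finset.sum_eq_zero fun l _ => by simp [Ne.symm hk]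
  · simp

private theorem ip0_eq (X : Fin n → Fin n → ℝ) : ip0 X X = fip X X - (∑ i, X i i) ^ 2 / n := by
  unfold ip0 fip tl
  rcases Nat.eq_zero_or_pos n with h | h
  · subst h
    simp
  · have hn : (n : ℝ) ≠ 0 := by positivity
    have e1 : ∀ i j : Fin n, (X i j - if i = j then mt X else 0) *
        (X i j - if i = j then mt X else 0) =
        X i j * X i j + (if i = j then (mt X ^ 2 - 2 * mt X * X i j) else 0) := by
      intro i j
      split_ifs <;> ring
    have e2 : ∑ i, ∑ j, (X i j - if i = j then mt X else 0) *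
        (X i j - if i = j then mt X else 0) =
        ∑ i, ∑ j, X i j * X i j + ∑ i : Fin n, (mt X ^ 2 - 2 * mt X * X i i) := by
      rw [← Finset.sum_add_distrib]
      refine Finset.sum_congr rfl fun i _ => ?_
      rw [Finset.sum_congr rfl fun j _ => e1 i j, Finset.sum_add_distrib]
      simp
    rw [e2, Finset.sum_sub_distrib, ← Finset.mul_sum, Finset.sum_const, Finset.card_univ,
      Fintype.card_fin, nsmul_eq_mul]
    unfold Helper35.HC.mt
    field_simp
    ring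

end alg

section jets

variable {n N : ℕ}

/-- the 2-jet of a real function on space time: value, gradient, heat -/
private structure J2 (φ : EE n × ℝ → ℝ) (z : EE n × ℝ) (v : ℝ) (d : Fin n → ℝ) (h : ℝ) :
    Prop where
  c : ContDiffAt ℝ 2 φ z
  v : φ z = v
  g : ∀ k, jg φ z k = d k
  h : jh φ z = h

private theorem J2.congr (hJA : StJA) {φ ψ : EE n × ℝ → ℝ} {z : EE n × ℝ} {v : ℝ}
    {d : Fin n → ℝ} {h : ℝ} (hψ : J2 ψ z v d h) (he : φ =ᶠ[𝓝 z] ψ) : J2 φ z v d h := by
  obtain ⟨h1, -, -, h4⟩ := (hJA n ℝ z).1 φ ψ he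
  exact ⟨hψ.c.congr_of_eventuallyEq he, he.eq_of_nhds.trans hψ.v,
    fun k => (h1 k).trans (hψ.g k), h4.trans hψ.h⟩

private theorem J2.cst (hJA : StJA) (z : EE n × ℝ) (c : ℝ) :
    J2 (fun _ : EE n × ℝ => c) z c (fun _ => 0) 0 := by
  obtain ⟨h1, h2⟩ := (hJA n ℝ z).2.1 c
  exact ⟨contDiffAt_const, rfl, h1, h2⟩

private theorem J2.add (hJA : StJA) {φ ψ : EE n × ℝ → ℝ} {z : EE n × ℝ} {v v' : ℝ}
    {d d' : Fin n → ℝ} {h h' : ℝ} (h1 : J2 φ z v d h) (h2 : J2 ψ z v' d' h') :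
    J2 (fun z => φ z + ψ z) z (v + v') (fun k => d k + d' k) (h + h') := by
  obtain ⟨a1, a2, -, -⟩ := (hJA n ℝ z).2.2.1 φ ψ h1.c h2.c
  refine ⟨h1.c.add h2.c, ?_, ?_, ?_⟩
  · show φ z + ψ z = _
    rw [h1.v, h2.v]
  · intro k
    rw [a1 k, h1.g k, h2.g k]
  · rw [a2, h1.h, h2.h]

private theorem J2.sub (hJA : StJA) {φ ψ : EE n × ℝ → ℝ} {z : EE n × ℝ} {v v' : ℝ}
    {d d' : Fin n → ℝ} {h h' : ℝ} (h1 : J2 φ z v d h) (h2 : J2 ψ z v' d' h') :
    J2 (fun z => φ z - ψ z) z (v - v') (fun k => d k - d' k) (h - h') := by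
  obtain ⟨-, -, a1, a2⟩ := (hJA n ℝ z).2.2.1 φ ψ h1.c h2.c
  refine ⟨h1.c.sub h2.c, ?_, ?_, ?_⟩
  · show φ z - ψ z = _
    rw [h1.v, h2.v]
  · intro k
    rw [a1 k, h1.g k, h2.g k]
  · rw [a2, h1.h, h2.h]

private theorem J2.cmul (hJA : StJA) {φ : EE n × ℝ → ℝ} {z : EE n × ℝ} {v : ℝ}
    {d : Fin n → ℝ} {h : ℝ} (h1 : J2 φ z v d h) (c : ℝ) :
    J2 (fun z => c * φ z) z (c * v) (fun k => c * d k) (c * h) := by
  obtain ⟨a1, a2⟩ := (hJA n ℝ z).2.2.2.1 φ c h1.c
  refine ⟨contDiffAt_const.mul h1.c, ?_, ?_, ?_⟩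
  · show c * φ z = _
    rw [h1.v]
  · intro k
    have := a1 k
    simp only [smul_eq_mul] at this
    rw [this, h1.g k]
  · simp only [smul_eq_mul] at a2
    rw [a2, h1.h]

private theorem J2.sum (hJA : StJA) {m : ℕ} {φ : Fin m → EE n × ℝ → ℝ} {z : EE n × ℝ}
    {v : Fin m → ℝ} {d : Fin m → Fin n → ℝ} {h : Fin m → ℝ}
    (h1 : ∀ i, J2 (φ i) z (v i) (d i) (h i)) :
    J2 (fun z => ∑ i, φ i z) z (∑ i, v i) (fun k => ∑ i, d i k) (∑ i, h i) := by
  obtain ⟨a1, a2⟩ := (hJA n ℝ z).2.2.2.2 m φ (fun i => (h1 i).c)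
  refine ⟨ContDiffAt.sum fun i _ => (h1 i).c, ?_, ?_, ?_⟩
  · exact Finset.sum_congr rfl fun i _ => (h1 i).v
  · intro k
    rw [a1 k]
    exact Finset.sum_congr rfl fun i _ => (h1 i).g k
  · rw [a2]
    exact Finset.sum_congr rfl fun i _ => (h1 i).h

private theorem J2.mul (hJB : StJB) {φ ψ : EE n × ℝ → ℝ} {z : EE n × ℝ} {v v' : ℝ}
    {d d' : Fin n → ℝ} {h h' : ℝ} (h1 : J2 φ z v d h) (h2 : J2 ψ z v' d' h') :
    J2 (fun z => φ z * ψ z) z (v * v') (fun k => d k * v' + v * d' k)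
      (h * v' + v * h' - 2 * ∑ k, d k * d' k) := by
  obtain ⟨a1, a2⟩ := (hJB n 0 z).1 φ ψ h1.c h2.c
  refine ⟨h1.c.mul h2.c, ?_, ?_, ?_⟩
  · show φ z * ψ z = _
    rw [h1.v, h2.v]
  · intro k
    rw [a1 k, h1.g k, h2.g k, h1.v, h2.v]
  · rw [a2, h1.h, h2.h, h1.v, h2.v]
    congr 2
    exact Finset.sum_congr rfl fun k _ => by rw [h1.g k, h2.g k]

/-- quotient by a function with value 1 and gradient 0 -/
private theorem J2.div1 (hJD : StJD) {φ ψ : EE n × ℝ → ℝ} {z : EE n × ℝ} {v : ℝ}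
    {d : Fin n → ℝ} {h h' : ℝ} (h1 : J2 φ z v d h) (h2 : J2 ψ z 1 (fun _ => 0) h') :
    J2 (fun z => φ z / ψ z) z v d (h - v * h') := by
  have hne : ψ z ≠ 0 := by
    rw [h2.v]
    exact one_ne_zero
  obtain ⟨a1, a2⟩ := (hJD n z).2 φ ψ h1.c h2.c hne
  refine ⟨h1.c.div h2.c hne, ?_, ?_, ?_⟩
  · show φ z / ψ z = _
    rw [h1.v, h2.v, div_one]
  · intro k
    rw [a1 k, h1.g k, h2.g k, h1.v, h2.v]
    simp
  · rw [a2, h1.h, h2.h, h1.v, h2.v]
    have e1 : ∑ k, jg φ z k * jg ψ z k = 0 :=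
      Finset.sum_eq_zero fun k _ => by rw [h2.g k, mul_zero]
    have e2 : ∑ k, jg ψ z k ^ 2 = 0 :=
      Finset.sum_eq_zero fun k _ => by rw [h2.g k]; norm_num
    rw [e1, e2]
    ring

private theorem J2.b2 (hJA : StJA) {φ : Fin n → Fin n → EE n × ℝ → ℝ} {z : EE n × ℝ}
    {v : Fin n → Fin n → ℝ} {d : Fin n → Fin n → Fin n → ℝ} {h : Fin n → Fin n → ℝ}
    (h1 : ∀ i j, J2 (φ i j) z (v i j) (d i j) (h i j)) (c e : Fin n → ℝ) :
    J2 (fun z => b2 c e (fun i j => φ i j z)) z (b2 c e v)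
      (fun k => b2 c e (fun i j => d i j k)) (b2 c e h) := by
  unfold Helper38.HG.b2
  exact J2.sum hJA fun i => J2.sum hJA fun j => (h1 i j).cmul hJA (c i * e j)

private theorem J2.q4 (hJA : StJA) {φ : Fin n → Fin n → Fin n → Fin n → EE n × ℝ → ℝ}
    {z : EE n × ℝ} {v : Fin n → Fin n → Fin n → Fin n → ℝ}
    {d : Fin n → Fin n → Fin n → Fin n → Fin n → ℝ} {h : Fin n → Fin n → Fin n → Fin n → ℝ}
    (h1 : ∀ i j k l, J2 (φ i j k l) z (v i j k l) (d i j k l) (h i j k l))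
    (c e c' e' : Fin n → ℝ) :
    J2 (fun z => q4 c e c' e' (fun i j k l => φ i j k l z)) z (q4 c e c' e' v)
      (fun m => q4 c e c' e' (fun i j k l => d i j k l m)) (q4 c e c' e' h) := by
  unfold Helper38.HG.q4
  exact J2.sum hJA fun i => J2.sum hJA fun j => J2.sum hJA fun k => J2.sum hJA fun l =>
    (h1 i j k l).cmul hJA (c i * e j * (c' k * e' l))

end jets

/-- the metric coefficients -/
private theorem jet_G (hG2 : StG2) (hG3 : StG3) (hJA : StJA) (hJB : StJB) {n N : ℕ} (x₀ : EE N)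
    (L : EE n →ₗᵢ[ℝ] EE N) (u : EE n × ℝ → EE N) (t₀ : ℝ) (hG : GraphSol x₀ L u t₀)
    (i j : Fin n) : J2 (Gf x₀ L u i j) (0, t₀) (if i = j then 1 else 0) (fun _ => 0)
      (-2 * ∑ k, (inner ℝ (jgg u (0, t₀) k i) (jgg u (0, t₀) k j) : ℝ)) := by
  have h3 := (hG3 n N x₀ L u t₀ hG).1
  have hci := (h3 i).1.of_le (show (2 : WithTop ℕ∞) ≤ 4 by norm_num)
  have hcj := (h3 j).1.of_le (show (2 : WithTop ℕ∞) ≤ 4 by norm_num)
  obtain ⟨b1, b2'⟩ := (hJB n N (0, t₀)).2 (fun z => jg u z i) (fun z => jg u z j) hci hcj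
  have hin : J2 (fun z => (inner ℝ (jg u z i) (jg u z j) : ℝ)) (0, t₀) 0 (fun _ => 0)
      (-2 * ∑ k, (inner ℝ (jgg u (0, t₀) k i) (jgg u (0, t₀) k j) : ℝ)) := by
    refine ⟨hci.inner ℝ hcj, ?_, ?_, ?_⟩
    · show (inner ℝ (jg u (0, t₀) i) (jg u (0, t₀) j) : ℝ) = 0
      rw [hG.du0 i, inner_zero_left]
    · intro k
      rw [b1 k, hG.du0 i, hG.du0 j, inner_zero_left, inner_zero_right, add_zero]
    · rw [b2', hG.du0 i, hG.du0 j, inner_zero_left, inner_zero_right]
      show 0 + 0 - 2 * (∑ k, (inner ℝ (jgg u (0, t₀) k i) (jgg u (0, t₀) k j) : ℝ)) = _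
      ring
  have hadd := (J2.cst hJA ((0 : EE n), t₀) (if i = j then (1 : ℝ) else 0)).add hJA hin
  have he : Gf x₀ L u i j =ᶠ[𝓝 ((0 : EE n), t₀)]
      fun z => (if i = j then (1 : ℝ) else 0) + inner ℝ (jg u z i) (jg u z j) := by
    filter_upwards [hG2 n N x₀ L u t₀ hG] with z hz
    exact hz.2.2.1 i j
  have := hadd.congr hJA he
  simpa using this


private theorem J2.cast {n : ℕ} {φ : EE n × ℝ → ℝ} {z : EE n × ℝ} {v v' : ℝ} {d d' : Fin n → ℝ}
    {h h' : ℝ} (h1 : J2 φ z v d h) (hv : v = v') (hd : ∀ k, d k = d' k) (hh : h = h') :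
    J2 φ z v' d' h' :=
  ⟨h1.c, h1.v.trans hv, fun k => (h1.g k).trans (hd k), h1.h.trans hh⟩

theorem hNJ1 (hNJ0 : StNJ0) (hG1 : StG1) (hG2 : StG2) (hG3 : StG3) (hG5 : StG5) (hJA : StJA)
    (hJB : StJB) (hJD : StJD) : StNJ1 := by
  intro n N x₀ L u t₀ hG hS ν hν A T hA hT χ α hχ hα
  obtain ⟨n1, n2, n3, n4, n5⟩ := hNJ0 n N x₀ L u t₀ hG hS ν hν A T hA hT
  obtain ⟨s1, -, -, -⟩ := hG1 n N x₀ L u t₀ hG
  have hsym : SymV A := by rw [hA]; exact s1
  set K : Fin n → Fin n → ℝ := kn A ν with hK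
  have hKs : ∀ i j, K i j = K j i := by
    intro i j
    show (inner ℝ (A i j) ν : ℝ) = inner ℝ (A j i) ν
    rw [hsym i j]
  -- the inputs
  have hN : J2 (NfG x₀ L u ν) (0, t₀) 1 (fun _ => 0) (2 * fip K K) := ⟨n1, n2, n3, n4⟩
  set kj : Fin n → Fin n → ℝ := fun i j =>
    -2 * (∑ a, ∑ b, (inner ℝ (A a i) (A b j) : ℝ) * K a b)
      + 2 * (∑ a, ∑ b, (inner ℝ (A i j) (A a b) : ℝ) * K a b) with hkj
  have hk : ∀ i j, J2 (kfG x₀ L u ν i j) (0, t₀) (K i j)
      (fun m => (inner ℝ (T i j m) ν : ℝ)) (kj i j) := by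
    intro i j
    obtain ⟨k1, k2, k3, k4⟩ := n5 i j
    exact ⟨k1, k2, k3, k4⟩
  have hGI : ∀ i j, J2 (GIf x₀ L u i j) (0, t₀) (if i = j then 1 else 0) (fun _ => 0)
      (2 * SA A i j) := by
    intro i j
    obtain ⟨k1, k2, k3, k4⟩ := hG5 n N x₀ L u t₀ hG i j
    refine ⟨k1.of_le (show (2 : WithTop ℕ∞) ≤ 4 by norm_num), k2, k3, ?_⟩
    rw [k4, hA]
    rfl
  -- the trace
  have ht := J2.sum hJA fun i => J2.sum hJA fun j => (hGI i j).mul hJB (hk i j)
  have htr : ∑ i, K i i = (inner ℝ (Hv A) ν : ℝ) := by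
    unfold Hv
    rw [sum_inner]
    rfl
  have hSum : ∑ i, kj i i + 2 * ∑ i, ∑ j, SA A i j * K i j =
      2 * ∑ a, ∑ b, (inner ℝ (Hv A) (A a b) : ℝ) * K a b := by
    have e1 : ∑ i, ∑ a, ∑ b, (inner ℝ (A a i) (A b i) : ℝ) * K a b =
        ∑ a, ∑ b, SA A a b * K a b := by
      rw [Finset.sum_comm]
      refine Finset.sum_congr rfl fun a _ => ?_
      rw [Finset.sum_comm]
      refine Finset.sum_congr rfl fun b _ => ?_
      unfold SA
      rw [Finset.sum_mul]
    have e2 : ∑ i, ∑ a, ∑ b, (inner ℝ (A i i) (A a b) : ℝ) * K a b =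
        ∑ a, ∑ b, (inner ℝ (Hv A) (A a b) : ℝ) * K a b := by
      rw [Finset.sum_comm]
      refine Finset.sum_congr rfl fun a _ => ?_
      rw [Finset.sum_comm]
      refine Finset.sum_congr rfl fun b _ => ?_
      unfold Hv
      rw [sum_inner, Finset.sum_mul]
    have e3 : ∑ i, kj i i = -2 * ∑ i, ∑ a, ∑ b, (inner ℝ (A a i) (A b i) : ℝ) * K a b
        + 2 * ∑ i, ∑ a, ∑ b, (inner ℝ (A i i) (A a b) : ℝ) * K a b := by
      rw [Finset.mul_sum, Finset.mul_sum, ← Finset.sum_add_distrib]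
    rw [e3, e1, e2]
    ring
  have ht' : J2 (fun z => ∑ i, ∑ j, GIf x₀ L u i j z * kfG x₀ L u ν i j z) (0, t₀)
      (inner ℝ (Hv A) ν) (fun k => (inner ℝ (et T k) ν : ℝ))
      (2 * ∑ a, ∑ b, (inner ℝ (Hv A) (A a b) : ℝ) * K a b) := by
    refine ht.cast ?_ ?_ ?_
    · rw [← htr]
      refine Finset.sum_congr rfl fun i _ => ?_
      simp
    · intro k
      unfold et
      rw [sum_inner]
      refine Finset.sum_congr rfl fun i _ => ?_
      simp
    · rw [← hSum, Finset.mul_sum, ← Finset.sum_add_distrib]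
      refine Finset.sum_congr rfl fun i _ => ?_
      rw [Finset.mul_sum]
      have : ∀ j : Fin n, 2 * SA A i j * K i j + (if i = j then (1 : ℝ) else 0) * kj i j
          - 2 * ∑ k : Fin n, 0 * (inner ℝ (T i j k) ν : ℝ) =
          2 * (SA A i j * K i j) + (if i = j then kj i j else 0) := by
        intro j
        simp only [zero_mul, Finset.sum_const_zero, mul_zero, sub_zero]
        split_ifs <;> ring
      rw [Finset.sum_congr rfl fun j _ => this j, Finset.sum_add_distrib]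
      simp only [Finset.sum_ite_eq, Finset.mem_univ, if_true]
      ring
  -- the function χ
  have hχ0 := (ht'.mul hJB ht').div1 hJD hN
  have hχe : χ = fun z => (∑ i, ∑ j, GIf x₀ L u i j z * kfG x₀ L u ν i j z) *
      (∑ i, ∑ j, GIf x₀ L u i j z * kfG x₀ L u ν i j z) / NfG x₀ L u ν z := by
    rw [hχ]
    funext z
    ring
  rw [← hχe] at hχ0
  have hχ1 : J2 χ (0, t₀) ((inner ℝ (Hv A) ν : ℝ) ^ 2)
      (fun k => 2 * inner ℝ (Hv A) ν * inner ℝ (et T k) ν) (-2 * eqn T ν + 2 * RN3 A ν) := by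
    refine hχ0.cast (by ring) (fun k => by ring) ?_
    have e1 : eqn T ν = ∑ k, (inner ℝ (et T k) ν : ℝ) * inner ℝ (et T k) ν := by
      unfold eqn
      exact Finset.sum_congr rfl fun k _ => by ring
    rw [e1]
    unfold RN3
    rw [← hK]
    ring
  -- the function α
  have hq4 := J2.sum hJA fun i => J2.sum hJA fun j => J2.sum hJA fun k => J2.sum hJA fun l =>
    ((hGI i k).mul hJB (hGI j l)).mul hJB ((hk i j).mul hJB (hk k l))
  have hq4' : J2 (fun z => ∑ i, ∑ j, ∑ k, ∑ l, GIf x₀ L u i k z * GIf x₀ L u j l z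
      * (kfG x₀ L u ν i j z * kfG x₀ L u ν k l z)) (0, t₀) (fip K K)
      (jg (fun z => ∑ i, ∑ j, ∑ k, ∑ l, GIf x₀ L u i k z * GIf x₀ L u j l z
      * (kfG x₀ L u ν i j z * kfG x₀ L u ν k l z)) (0, t₀))
      (4 * (∑ i, ∑ k, ∑ j, SA A i k * (K i j * K j k)) + 2 * (∑ i, ∑ j, K i j * kj i j)
        - 2 * tqn T ν) := by
    refine ⟨hq4.c, hq4.v.trans ?_, fun _ => rfl, hq4.h.trans ?_⟩
    · exact dd_sum fun i j k l => K i j * K k l
    · have e0 : ∀ i j k l : Fin n,
          (2 * SA A i k * (if j = l then (1 : ℝ) else 0)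
            + (if i = k then (1 : ℝ) else 0) * (2 * SA A j l)
            - 2 * ∑ _m : Fin n, (0 : ℝ) * 0) * (K i j * K k l)
          + (if i = k then (1 : ℝ) else 0) * (if j = l then (1 : ℝ) else 0)
            * (kj i j * K k l + K i j * kj k l
              - 2 * ∑ m, (inner ℝ (T i j m) ν : ℝ) * inner ℝ (T k l m) ν)
          - 2 * ∑ m : Fin n, ((0 : ℝ) * (if j = l then (1 : ℝ) else 0)
              + (if i = k then (1 : ℝ) else 0) * 0)
            * ((inner ℝ (T i j m) ν : ℝ) * K k l + K i j * inner ℝ (T k l m) ν) =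
          (SA A i k * (if j = l then 1 else 0)) * (2 * (K i j * K k l))
          + ((if i = k then (1 : ℝ) else 0) * SA A j l) * (2 * (K i j * K k l))
          + ((if i = k then (1 : ℝ) else 0) * (if j = l then 1 else 0)) *
            (kj i j * K k l + K i j * kj k l
              - 2 * ∑ m, (inner ℝ (T i j m) ν : ℝ) * inner ℝ (T k l m) ν) := by
        intro i j k l
        simp only [zero_mul, mul_zero, add_zero, Finset.sum_const_zero, sub_zero]
        ring
      rw [Finset.sum_congr rfl fun i _ => Finset.sum_congr rfl fun j _ =>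
        Finset.sum_congr rfl fun k _ => Finset.sum_congr rfl fun l _ => e0 i j k l]
      simp only [Finset.sum_add_distrib]
      rw [sd_sum, ds_sum]
      have e1 : ∑ i, ∑ j, ∑ k, ∑ l, ((if i = k then (1 : ℝ) else 0) * (if j = l then 1 else 0)) *
            (kj i j * K k l + K i j * kj k l
              - 2 * ∑ m, (inner ℝ (T i j m) ν : ℝ) * inner ℝ (T k l m) ν) =
          ∑ i, ∑ j, (kj i j * K i j + K i j * kj i j
              - 2 * ∑ m, (inner ℝ (T i j m) ν : ℝ) * inner ℝ (T i j m) ν) :=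
        dd_sum fun i j k l => kj i j * K k l + K i j * kj k l
              - 2 * ∑ m, (inner ℝ (T i j m) ν : ℝ) * inner ℝ (T k l m) ν
      rw [e1]
      have e2 : ∑ i, ∑ j, ∑ k, SA A i k * (2 * (K i j * K k j)) =
          2 * ∑ i, ∑ k, ∑ j, SA A i k * (K i j * K j k) := by
        rw [Finset.mul_sum]
        refine Finset.sum_congr rfl fun i _ => ?_
        rw [Finset.sum_comm, Finset.mul_sum]
        refine Finset.sum_congr rfl fun k _ => ?_
        rw [Finset.mul_sum]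
        refine Finset.sum_congr rfl fun j _ => ?_
        rw [hKs k j]
        ring
      have e3 : ∑ i, ∑ j, ∑ l, SA A j l * (2 * (K i j * K i l)) =
          2 * ∑ i, ∑ k, ∑ j, SA A i k * (K i j * K j k) := by
        rw [Finset.sum_comm, Finset.mul_sum]
        refine Finset.sum_congr rfl fun j _ => ?_
        rw [Finset.sum_comm, Finset.mul_sum]
        refine Finset.sum_congr rfl fun l _ => ?_
        rw [Finset.mul_sum]
        refine Finset.sum_congr rfl fun i _ => ?_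
        rw [hKs i j]
        ring
      have e4 : ∑ i, ∑ j, (kj i j * K i j + K i j * kj i j
              - 2 * ∑ m, (inner ℝ (T i j m) ν : ℝ) * inner ℝ (T i j m) ν) =
          2 * (∑ i, ∑ j, K i j * kj i j) - 2 * tqn T ν := by
        unfold tqn
        rw [Finset.mul_sum, Finset.mul_sum, ← Finset.sum_sub_distrib]
        refine Finset.sum_congr rfl fun i _ => ?_
        rw [Finset.mul_sum, Finset.mul_sum, ← Finset.sum_sub_distrib]
        refine Finset.sum_congr rfl fun j _ => ?_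
        have : ∑ m, (inner ℝ (T i j m) ν : ℝ) * inner ℝ (T i j m) ν =
            ∑ m, (inner ℝ (T i j m) ν : ℝ) ^ 2 := Finset.sum_congr rfl fun m _ => by ring
        rw [this]
        ring
      rw [e2, e3, e4]
      ring
  have hα0 := (hq4'.div1 hJD hN).sub hJA (hχ1.cmul hJA (1 / (n : ℝ)))
  have hαe : α = fun z => (∑ i, ∑ j, ∑ k, ∑ l, GIf x₀ L u i k z * GIf x₀ L u j l z
      * (kfG x₀ L u ν i j z * kfG x₀ L u ν k l z)) / NfG x₀ L u ν z - 1 / (n : ℝ) * χ z := by
    rw [hα]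
    funext z
    ring
  rw [← hαe] at hα0
  refine ⟨⟨hχ1.c, hχ1.v, hχ1.g, hχ1.h, hα0.c, ?_, ?_⟩, ?_⟩
  · rw [hα0.v, ip0_eq, htr]
    ring
  · rw [hα0.h]
    unfold RN2 RNa
    rw [← hK]
    have : ∑ i, ∑ j, K i j * (-2 * (∑ a, ∑ b, (inner ℝ (A a i) (A b j) : ℝ) * K a b)
      + 2 * (∑ a, ∑ b, (inner ℝ (A i j) (A a b) : ℝ) * K a b)) = ∑ i, ∑ j, K i j * kj i j := rfl
    rw [this]
    ring
  -- the function β
  intro P Q hPQ g kq β hg hkq hβ
  obtain ⟨hP, hQ, hPQ0⟩ := hPQ
  have hgg : ∀ c d : Fin n → ℝ, J2 (g c d) (0, t₀) (∑ i, c i * d i) (fun _ => 0)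
      (-2 * Sbl A c d) := by
    intro c d
    have h1 := J2.b2 hJA (fun i j => jet_G hG2 hG3 hJA hJB x₀ L u t₀ hG i j) c d
    have e1 : b2 c d (fun i j => if i = j then (1 : ℝ) else 0) = ∑ i, c i * d i := by
      unfold b2
      refine Finset.sum_congr rfl fun i _ => ?_
      simp
    have e2 : b2 c d (fun i j =>
        -2 * ∑ k, (inner ℝ (jgg u (0, t₀) k i) (jgg u (0, t₀) k j) : ℝ)) = -2 * Sbl A c d := by
      rw [b2_smul, b2_sum]
      congr 1
      unfold Sbl
      refine Finset.sum_congr rfl fun k _ => ?_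
      rw [b2_inner_two c d (fun i => jgg u (0, t₀) k i) (fun i => jgg u (0, t₀) k i), ← hA]
      rfl
    have e3 : (fun _ : Fin n => b2 c d (fun _ _ => (0 : ℝ))) = fun _ => 0 := by
      funext k
      simp [b2]
    have e4 : g c d = fun z => b2 c d (fun i j => Gf x₀ L u i j z) := by
      funext z
      rw [hg]
      show (inner ℝ (∑ i, c i • dv1 (grf x₀ L u z.2) z.1 i)
        (∑ i, d i • dv1 (grf x₀ L u z.2) z.1 i) : ℝ) = _
      rw [← b2_inner_two]
      rfl
    rw [e1, e2, e3] at h1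
    rw [e4]
    exact h1
  have hPP : J2 (g P P) (0, t₀) 1 (fun _ => 0) (-2 * Sbl A P P) := by
    have h1 := hgg P P
    have : ∑ i, P i * P i = 1 := by rw [← hP]; exact Finset.sum_congr rfl fun i _ => by ring
    rwa [this] at h1
  have hQQ : J2 (g Q Q) (0, t₀) 1 (fun _ => 0) (-2 * Sbl A Q Q) := by
    have h1 := hgg Q Q
    have : ∑ i, Q i * Q i = 1 := by rw [← hQ]; exact Finset.sum_congr rfl fun i _ => by ring
    rwa [this] at h1
  have hPQg : J2 (g P Q) (0, t₀) 0 (fun _ => 0) (-2 * Sbl A P Q) := by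
    have h1 := hgg P Q
    rwa [hPQ0] at h1
  have hq : J2 (fun z => g P Q z / g P P z) (0, t₀) 0 (fun _ => 0) (-2 * Sbl A P Q) := by
    have := hPQg.div1 hJD hPP
    rwa [zero_mul, sub_zero] at this
  have hkq' : ∀ c d : Fin n → ℝ, J2 (kq c d) (0, t₀) (b2 c d K)
      (fun m => b2 c d (fun i j => (inner ℝ (T i j m) ν : ℝ))) (b2 c d kj) := by
    intro c d
    have h1 := J2.b2 hJA hk c d
    rw [hkq]
    exact h1
  have hbil : ∀ c d : Fin n → ℝ, b2 c d K = bil K c d := by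
    intro c d
    unfold b2 bil
    exact Finset.sum_congr rfl fun i _ => Finset.sum_congr rfl fun j _ => by ring
  have hm := (hkq' P Q).sub hJA (hq.mul hJB (hkq' P P))
  have hm' : J2 (fun z => kq P Q z - g P Q z / g P P z * kq P P z) (0, t₀) (bil K P Q)
      (fun m => b2 P Q (fun i j => (inner ℝ (T i j m) ν : ℝ)))
      (b2 P Q kj + 2 * Sbl A P Q * bil K P P) := by
    refine hm.cast ?_ ?_ ?_
    · rw [hbil]
      ring
    · intro k
      ring
    · rw [← hbil P P]
      simp only [zero_mul, Finset.sum_const_zero, mul_zero, sub_zero, add_zero]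
      ring
  have hD := ((hPP.mul hJB hQQ).sub hJA (hPQg.mul hJB hPQg)).mul hJB hN
  have hD' : J2 (fun z => (g P P z * g Q Q z - g P Q z * g P Q z) * NfG x₀ L u ν z) (0, t₀) 1
      (fun _ => 0) (-2 * Sbl A P P + -2 * Sbl A Q Q + 2 * fip K K) := by
    refine hD.cast ?_ ?_ ?_
    · ring
    · intro k
      ring
    · simp only [mul_zero, zero_mul, mul_one, one_mul, sub_zero, add_zero,
        Finset.sum_const_zero]
  have hβ0 := (hm'.mul hJB hm').div1 hJD hD'
  have hβe : β = fun z => (kq P Q z - g P Q z / g P P z * kq P P z) *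
      (kq P Q z - g P Q z / g P P z * kq P P z) /
      ((g P P z * g Q Q z - g P Q z * g P Q z) * NfG x₀ L u ν z) := by
    rw [hβ]
    funext z
    rw [pow_two, pow_two]
  rw [← hβe] at hβ0
  refine ⟨hβ0.c, ?_, ?_⟩
  · rw [hβ0.v]
    ring
  · rw [hβ0.h]
    have e1 : tpq T P Q ν = ∑ m, b2 P Q (fun i j => (inner ℝ (T i j m) ν : ℝ)) *
        b2 P Q (fun i j => (inner ℝ (T i j m) ν : ℝ)) := by
      unfold tpq b2
      exact Finset.sum_congr rfl fun m _ => pow_two _
    have e2 : b2 P Q kj = -2 * (∑ a, ∑ b, (inner ℝ (Av A P a) (Av A Q b) : ℝ) * K a b)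
        + 2 * (∑ a, ∑ b, (inner ℝ (bilV A P Q) (A a b) : ℝ) * K a b) := by
      have f1 : b2 P Q (fun i j => ∑ a, ∑ b, (inner ℝ (A a i) (A b j) : ℝ) * K a b) =
          ∑ a, ∑ b, (inner ℝ (Av A P a) (Av A Q b) : ℝ) * K a b := by
        rw [b2_sum]
        refine Finset.sum_congr rfl fun a _ => ?_
        rw [b2_sum]
        refine Finset.sum_congr rfl fun b _ => ?_
        have : (fun i j => (inner ℝ (A a i) (A b j) : ℝ) * K a b) =
            fun i j => K a b * (inner ℝ (A a i) (A b j) : ℝ) := by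
          funext i j
          ring
        rw [this, b2_smul, b2_inner_two, mul_comm]
        rfl
      have f2 : b2 P Q (fun i j => ∑ a, ∑ b, (inner ℝ (A i j) (A a b) : ℝ) * K a b) =
          ∑ a, ∑ b, (inner ℝ (bilV A P Q) (A a b) : ℝ) * K a b := by
        rw [b2_sum]
        refine Finset.sum_congr rfl fun a _ => ?_
        rw [b2_sum]
        refine Finset.sum_congr rfl fun b _ => ?_
        have : (fun i j => (inner ℝ (A i j) (A a b) : ℝ) * K a b) =
            fun i j => K a b * (inner ℝ (A i j) (A a b) : ℝ) := by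
          funext i j
          ring
        rw [this, b2_smul, b2_inner_left, mul_comm]
      have f3 : b2 P Q kj =
          -2 * b2 P Q (fun i j => ∑ a, ∑ b, (inner ℝ (A a i) (A b j) : ℝ) * K a b)
          + 2 * b2 P Q (fun i j => ∑ a, ∑ b, (inner ℝ (A i j) (A a b) : ℝ) * K a b) := by
        unfold b2
        rw [Finset.mul_sum, Finset.mul_sum, ← Finset.sum_add_distrib]
        refine Finset.sum_congr rfl fun i _ => ?_
        rw [Finset.mul_sum, Finset.mul_sum, ← Finset.sum_add_distrib]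
        refine Finset.sum_congr rfl fun j _ => ?_
        rw [hkj]
        ring
      rw [f3, f1, f2]
    rw [← e1, e2]
    unfold RN1
    rw [← hK]
    ring

end Helper38.HG
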