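import Pool.Agent.Helper35.HG.StE

/-!
Project HG (MP_925021_gt), module RG3: the gradient condition.
-/

set_option autoImplicit false

namespace Helper38.HG

open Helper35.PI Helper35.PI2 Helper32.CL Helper35.MS Helper35.HSF Helper35.HC Helper35.HG

/-- the core inequality, all variables real -/
theorem rg3core (s w x T a y k : ℝ) (hs : 0 ≤ s) (hw : 1 ≤ w) (hx : 0 ≤ x) (hT : 0 ≤ T)
    (hw2 : w ^ 2 = 1 + s * x) (ha : 0 ≤ a) (ha2 : a ≤ 3 / 5)
    (hy : 0 ≤ y) (hy2 : y ^ 2 = x * T * a)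
    (hsk2 : s * (k + 2) ≤ 9 / 64) (hsk : s * k ≤ 3 / 64)
    (hTT : 5 / 4 * T ≤ (k + 2) * (433 / 1000) + 23 / 100 * x + 3 / 10 * k * (w - 1)) :
    4 / 9 * a * w ^ 2 + s / 2 * (T * a + 4 * y) ≤ w ^ 2 := by
  set Θ : ℝ := 49 / 1000 + 184 / 1000 * (w ^ 2 - 1) + 12 / 1000 * (w - 1) with hΘ
  have hw0 : 0 ≤ w ^ 2 - 1 := by nlinarith
  have h1 : s * T ≤ Θ := by
    have h2 := mul_le_mul_of_nonneg_left hTT hs
    have h3 : s * k * (w - 1) ≤ 3 / 64 * (w - 1) :=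
      mul_le_mul_of_nonneg_right hsk (by linarith)
    have h4 : s * x = w ^ 2 - 1 := by linarith
    have h5 : s * ((k + 2) * (433 / 1000) + 23 / 100 * x + 3 / 10 * k * (w - 1))
        = s * (k + 2) * (433 / 1000) + 23 / 100 * (s * x) + 3 / 10 * (s * k * (w - 1)) := by
      ring
    rw [h5, h4] at h2
    rw [hΘ]
    nlinarith
  have hsT : 0 ≤ s * T := mul_nonneg hs hT
  have hΘ0 : 0 ≤ Θ := le_trans hsT h1
  have h6 : s / 2 * (T * a) ≤ 3 / 10 * Θ := by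
    have : s * T * a ≤ Θ * (3 / 5) := mul_le_mul h1 ha2 ha hΘ0
    linarith
  have h7 : 2 * s * y ≤ 1 / 3 * (w ^ 2 - 1) + 9 / 5 * Θ := by
    have h8 : (2 * s * y) ^ 2 ≤ (1 / 3 * (w ^ 2 - 1) + 9 / 5 * Θ) ^ 2 := by
      have h9 : (2 * s * y) ^ 2 = 4 * ((s * x) * (s * T * a)) := by
        rw [show (2 * s * y) ^ 2 = 4 * s ^ 2 * y ^ 2 by ring, hy2]; ring
      have h10 : s * T * a ≤ Θ * (3 / 5) := mul_le_mul h1 ha2 ha hΘ0
      have h11 : s * x = w ^ 2 - 1 := by linarith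
      rw [h9, h11]
      have h12 : (w ^ 2 - 1) * (s * T * a) ≤ (w ^ 2 - 1) * (Θ * (3 / 5)) :=
        mul_le_mul_of_nonneg_left h10 hw0
      nlinarith [sq_nonneg (1 / 3 * (w ^ 2 - 1) - 9 / 5 * Θ)]
    have h13 : 0 ≤ 1 / 3 * (w ^ 2 - 1) + 9 / 5 * Θ := by positivity
    exact le_trans (le_abs_self _) (abs_le_of_sq_le_sq h8 h13)
  have h14 : 4 / 9 * a * w ^ 2 ≤ 4 / 15 * w ^ 2 := by
    have := mul_le_mul_of_nonneg_right ha2 (sq_nonneg w)
    linarith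
  have h15 : s / 2 * (T * a + 4 * y) = s / 2 * (T * a) + 2 * s * y := by ring
  rw [h15]
  have h16 : 4 / 15 * w ^ 2 + 3 / 10 * Θ + (1 / 3 * (w ^ 2 - 1) + 9 / 5 * Θ) ≤ w ^ 2 := by
    rw [hΘ]
    nlinarith [sq_nonneg (w - 1)]
  linarith

theorem hRG3 : StRG3 := by
  intro n k hn hk x T g hx hT hg hTT
  have hn' : (16 : ℝ) ≤ n := by exact_mod_cast hn
  have hk' : 8 * ((k : ℝ) + 1) ≤ n := by exact_mod_cast hk
  have hk0 : (0 : ℝ) ≤ k := Nat.cast_nonneg k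
  have hn0 : (0 : ℝ) < n := by linarith
  set s : ℝ := sn n with hs
  have hs0 : 0 < s := by rw [hs, sn]; positivity
  set w : ℝ := Real.sqrt (1 + s * x) with hw
  have hsx : 0 ≤ s * x := mul_nonneg hs0.le hx
  have hw2 : w ^ 2 = 1 + s * x := by rw [hw]; exact Real.sq_sqrt (by linarith)
  have hw1 : 1 ≤ w := by
    rw [hw]
    exact Real.one_le_sqrt.2 (by linarith)
  have hw0 : 0 < w := by linarith
  -- the hypothesis
  have hhx : hh x ≤ 1 := by
    unfold hh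
    rw [div_le_one (by positivity)]
    nlinarith
  have hJ : (pP n).J x = 263 / 1000 + 23 / 100 * x + 17 / 100 * hh x - 3 / 5 * (w - 1) := rfl
  have hP : (pP n).P x = 3 / 10 * (w - 1) := rfl
  have hJ0 : (pP n).J 0 = 433 / 1000 := by
    show 263 / 1000 + 23 / 100 * (0 : ℝ) + 17 / 100 * hh 0
      - 3 / 5 * (Real.sqrt (1 + sn n * 0) - 1) = 433 / 1000
    have : hh 0 = 1 := by unfold hh; norm_num
    rw [this, mul_zero, mul_zero, add_zero, add_zero, Real.sqrt_one]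
    norm_num
  have hE : (pP n).E = 1 / 4 := rfl
  rw [hJ, hP, hJ0, hE] at hTT
  have hTT' : 5 / 4 * T ≤ ((k : ℝ) + 2) * (433 / 1000) + 23 / 100 * x
      + 3 / 10 * k * (w - 1) := by
    nlinarith
  have hsk2 : s * ((k : ℝ) + 2) ≤ 9 / 64 := by
    rw [hs, sn, div_mul_eq_mul_div, div_le_iff₀ (by positivity)]
    nlinarith
  have hsk : s * (k : ℝ) ≤ 3 / 64 := by
    rw [hs, sn, div_mul_eq_mul_div, div_le_iff₀ (by positivity)]
    nlinarith [sq_nonneg ((n : ℝ) - 16)]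
  -- g
  have hg1 : 5 / 6 ≤ g := by
    rw [hg, le_div_iff₀ (by linarith)]
    linarith
  have hg0 : 0 < g := by linarith
  set a : ℝ := 1 / (2 * g) with ha
  have ha0 : 0 < a := by rw [ha]; positivity
  have ha1 : a ≤ 3 / 5 := by
    rw [ha, div_le_iff₀ (by positivity)]
    linarith
  have hTa : T / (2 * g) = T * a := by rw [ha]; ring
  have hxTa : x * T / (2 * g) = x * T * a := by rw [ha]; ring
  have hy0 : 0 ≤ x * T * a := by positivity
  have key := rg3core s w x T a (Real.sqrt (x * T * a)) k hs0.le hw1 hx hT hw2 ha0.le ha1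
    (Real.sqrt_nonneg _) (Real.sq_sqrt hy0) hsk2 hsk hTT'
  have hP1 : (pP n).P1 x = 3 / 10 * (s / (2 * w)) := rfl
  have he1 : (pP n).e1 x = -(27 / 40 * (s ^ 2 / (4 * w ^ 3))) := rfl
  have he : (pP n).e x = 27 / 40 * (s / (2 * w)) := rfl
  rw [hTa, hxTa, hP1, he1, he, neg_neg]
  have h1 : 3 / 10 * (s / (2 * w)) / (2 * g)
      + 27 / 40 * (s ^ 2 / (4 * w ^ 3)) * (T * a + 4 * Real.sqrt (x * T * a))
      = 27 / 40 * (s / (2 * w ^ 3)) * (4 / 9 * a * w ^ 2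
        + s / 2 * (T * a + 4 * Real.sqrt (x * T * a))) := by
    have : 3 / 10 * (s / (2 * w)) / (2 * g) = 3 / 10 * (s / (2 * w)) * a := by rw [ha]; ring
    rw [this]
    field_simp
    ring
  have h2 : 27 / 40 * (s / (2 * w)) = 27 / 40 * (s / (2 * w ^ 3)) * w ^ 2 := by
    field_simp
  rw [h1, h2]
  exact mul_le_mul_of_nonneg_left key (by positivity)

end Helper38.HG
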