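import Pool.Agent.Helper80.HG.St

/-!
# Project HG, module OA: a normal abelian subgroup of a faithful group of germs is centralized by
the commutator subgroup
-/

set_option autoImplicit false

namespace Pool.Agent.Helper38.HG

open Pool.Agent.Helper80.HG Filter Topology Asymptotics
open scoped commutatorElement

theorem oa_arch (hCO : StCO) {H : Set (ℝ → ℝ)} (hB : Bas H) {Γ : Type} [Group Γ]
    {θ : Γ → ℝ → ℝ} (hR : RB H θ) (a b : Γ) (hb : Pos θ b) (hab : a * b = b * a) :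
    ∃ n : ℕ, Pos θ (b ^ n * a⁻¹) := by
  obtain ⟨N, hN⟩ := hCO H hB Γ θ hR a b hb hab
  refine ⟨N + 1, ?_⟩
  apply hR.trans a (fun w => w < θ (b ^ (N + 1) * a⁻¹) w)
  have h1 : ∀ᶠ x in atTop, θ (b * b ^ N) x = θ b (θ (b ^ N) x) := hR.mul b (b ^ N)
  have h2 : ∀ᶠ x in atTop, θ (b ^ N) x < θ b (θ (b ^ N) x) := (hR.top (b ^ N)).eventually hb
  have h3 : ∀ᶠ x in atTop, θ (b ^ (N + 1) * a⁻¹ * a) x = θ (b ^ (N + 1) * a⁻¹) (θ a x) :=
    hR.mul (b ^ (N + 1) * a⁻¹) a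
  filter_upwards [h1, h2, h3, hN] with x e1 e2 e3 e4
  rw [inv_mul_cancel_right, pow_succ', e1] at e3
  rw [pow_succ']
  rw [← e3]
  exact lt_of_le_of_lt e4 e2

theorem oa_comm (hCO : StCO) (hSC : StSC) {H : Set (ℝ → ℝ)} (hB : Bas H) {Γ : Type} [Group Γ]
    {θ : Γ → ℝ → ℝ} (hR : RB H θ) (hF : Fai θ) (A : Subgroup Γ) (hA : A.Normal)
    (hcomm : ∀ a ∈ A, ∀ b ∈ A, a * b = b * a) (s t : Γ) (a : Γ) (ha : a ∈ A) :
    s * (t * a * t⁻¹) * s⁻¹ = t * (s * a * s⁻¹) * t⁻¹ := by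
  let cg : CommGroup A :=
    { (inferInstance : Group A) with
      mul_comm := fun x y => Subtype.ext (hcomm x.1 x.2 y.1 y.2) }
  let φ : Γ → (A →* A) := fun g =>
    { toFun := fun x => ⟨g * x.1 * g⁻¹, hA.conj_mem x.1 x.2 g⟩
      map_one' := Subtype.ext (by
        change g * (1 : Γ) * g⁻¹ = 1
        rw [mul_one, mul_inv_cancel])
      map_mul' := fun x y => Subtype.ext (by
        change g * (x.1 * y.1) * g⁻¹ = g * x.1 * g⁻¹ * (g * y.1 * g⁻¹)
        group) }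
  have hP1 : ¬ Pos θ (((1 : A) : Γ)) := by
    intro h
    exact (hR.npos _ h).1 (by
      change Tr θ (1 : Γ)
      exact hR.one)
  have key := @hSC A cg (fun x => Pos θ (x : Γ)) hP1
    (fun x y hx hy => hR.pmul x y hx hy)
    (fun x hx => by
      rcases hR.tri (x : Γ) with h | h | h
      · exact absurd (Subtype.ext (hF _ h)) hx
      · exact Or.inl h
      · exact Or.inr h)
    (fun x y hy => by
      obtain ⟨n, hn⟩ := oa_arch hCO hB hR (x : Γ) (y : Γ) hy (hcomm x.1 x.2 y.1 y.2)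
      refine ⟨n, ?_⟩
      have e : (((y ^ n * x⁻¹ : A)) : Γ) = (y : Γ) ^ n * (x : Γ)⁻¹ := by
        push_cast
        rfl
      rw [← e] at hn
      exact hn)
    (φ s) (φ t) (fun x hx => hR.pconj s x hx) (fun x hx => hR.pconj t x hx) ⟨a, ha⟩
  exact congrArg Subtype.val key

theorem hOA : StOA := by
  intro hCO hSC H hB Γ _ θ hR hF A hA hcomm t ht a ha
  have hle : commutator Γ ≤ Subgroup.centralizer (A : Set Γ) := by
    rw [commutator_def, Subgroup.commutator_le]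
    intro s _ u _
    rw [Subgroup.mem_centralizer_iff]
    intro h hh
    have hb : (u * s)⁻¹ * h * (u * s) ∈ A := by
      have := hA.conj_mem h hh (u * s)⁻¹
      rwa [inv_inv] at this
    have key := oa_comm hCO hSC hB hR hF A hA hcomm s u _ hb
    have e1 : u * (s * ((u * s)⁻¹ * h * (u * s)) * s⁻¹) * u⁻¹ = h := by group
    rw [e1] at key
    have e2 : s * (u * ((u * s)⁻¹ * h * (u * s)) * u⁻¹) * s⁻¹ = ⁅s, u⁆ * h * ⁅s, u⁆⁻¹ := by
      rw [commutatorElement_def]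
      group
    rw [e2] at key
    calc h * ⁅s, u⁆ = (⁅s, u⁆ * h * ⁅s, u⁆⁻¹) * ⁅s, u⁆ := by rw [key]
      _ = ⁅s, u⁆ * h := by group
  have := (Subgroup.mem_centralizer_iff.1 (hle ht)) a ha
  exact this.symm

end Pool.Agent.Helper38.HG
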